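import Pool.Agent.Y32.ES.Ray

/-!
Finite determination of intersections of equality sets when the weight vectors of the pairs lie on
finitely many rays.
-/

set_option autoImplicit false

namespace Pool.Agent.Results.MP_de9e11_lc.FinitelyManyRays

/-- The weight of a word: the sum of the weights of its letters. -/
def weight {B : Type} (ω : B → ℕ) (w : FreeMonoid B) : ℕ := ((FreeMonoid.toList w).map ω).sum

open Classical in
/-- The weight function which gives weight `0` to the letter `a` and weight `1` to every other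
letter. -/
noncomputable def other {B : Type} (a : B) : B → ℕ := fun b => if b = a then 0 else 1

lemma wt_eq {B : Type} (ω : B → ℕ) (w : List B) : Y32.ES.wt ω w = (w.map ω).sum := by
  induction w with
  | nil => simp [Y32.ES.wt]
  | cons c w ih => simp [Y32.ES.wt, ih]

/-- the images of the letters -/
def Φ {A B : Type} (p : (FreeMonoid A →* FreeMonoid B) × (FreeMonoid A →* FreeMonoid B)) :
    (A → List B) × (A → List B) :=
  (fun c => FreeMonoid.toList (p.1 (FreeMonoid.of c)),
    fun c => FreeMonoid.toList (p.2 (FreeMonoid.of c)))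

lemma Φ_inj {A B : Type} : Function.Injective (Φ (A := A) (B := B)) := by
  intro p q h
  have h1 := congrArg Prod.fst h
  have h2 := congrArg Prod.snd h
  apply Prod.ext
  · apply FreeMonoid.hom_eq
    intro c
    exact FreeMonoid.toList.injective (congrFun h1 c)
  · apply FreeMonoid.hom_eq
    intro c
    exact FreeMonoid.toList.injective (congrFun h2 c)

lemma toList_apply {A B : Type} (f : FreeMonoid A →* FreeMonoid B) (x : List A) :
    FreeMonoid.toList (f (FreeMonoid.ofList x)) =
      x.flatMap (fun c => FreeMonoid.toList (f (FreeMonoid.of c))) := by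
  induction x with
  | nil => simp
  | cons c x ih =>
    rw [FreeMonoid.ofList_cons, map_mul, FreeMonoid.toList_mul, ih, List.flatMap_cons]

lemma agree_iff {A B : Type}
    (p : (FreeMonoid A →* FreeMonoid B) × (FreeMonoid A →* FreeMonoid B)) (x : FreeMonoid A) :
    p.1 x = p.2 x ↔ (FreeMonoid.toList x).flatMap (Φ p).1 = (FreeMonoid.toList x).flatMap (Φ p).2 := by
  have h1 := toList_apply p.1 (FreeMonoid.toList x)
  have h2 := toList_apply p.2 (FreeMonoid.toList x)
  rw [FreeMonoid.ofList_toList] at h1 h2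
  constructor
  · intro h
    show (FreeMonoid.toList x).flatMap _ = (FreeMonoid.toList x).flatMap _
    rw [h] at h1
    exact h1.symm.trans h2
  · intro h
    apply FreeMonoid.toList.injective
    exact (h1.trans h).trans h2.symm

lemma main {A B : Type} [Fintype A] (K : Finset ((A → ℕ) × (A → ℕ)))
    (S : Set ((FreeMonoid A →* FreeMonoid B) × (FreeMonoid A →* FreeMonoid B)))
    (hS : ∀ p ∈ S, ∃ ω : B → ℕ, (∀ b b', ω b = 0 → ω b' = 0 → b = b') ∧
      ∃ κ ∈ K, ∃ N : ℕ, 0 < N ∧ ∀ c, weight ω (p.1 (FreeMonoid.of c)) = N * κ.1 c ∧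
        weight ω (p.2 (FreeMonoid.of c)) = N * κ.2 c) :
    ∃ T ⊆ S, T.Finite ∧ T.ncard ≤ 2 * Fintype.card A * K.card ∧
      (⋂ p ∈ T, {x : FreeMonoid A | p.1 x = p.2 x}) =
        ⋂ p ∈ S, {x : FreeMonoid A | p.1 x = p.2 x} := by
  obtain ⟨T, h1, h2, h3, h4⟩ := Y32.ES.rays K (Φ '' S) (by
    rintro _ ⟨p, hp, rfl⟩
    obtain ⟨ω, hω, κ, hκ, N, hN, h⟩ := hS p hp
    refine ⟨κ, hκ, ω, N, hω, hN.ne', ?_, ?_⟩
    · intro c
      rw [wt_eq]
      exact (h c).1
    · intro c
      rw [wt_eq]
      exact (h c).2)
  refine ⟨Φ ⁻¹' T, ?_, h2.preimage Φ_inj.injOn, ?_, ?_⟩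
  · intro p hp
    obtain ⟨q, hq, he⟩ := h1 hp
    rw [← Φ_inj he]
    exact hq
  · exact (Set.ncard_le_ncard_of_injOn Φ (fun p hp => hp) Φ_inj.injOn h2).trans h3
  · ext x
    simp only [Set.mem_iInter, Set.mem_ofPred_eq, Set.mem_preimage]
    constructor
    · intro hx p hp
      rw [agree_iff]
      refine h4 _ ?_ _ ⟨p, hp, rfl⟩
      intro q hq
      obtain ⟨q', _, rfl⟩ := h1 hq
      exact (agree_iff q' x).1 (hx q' hq)
    · intro hx p hp
      obtain ⟨q, hq, he⟩ := h1 hp
      rw [← Φ_inj he]
      exact hx q hq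

/-- Let `A` be a finite alphabet and `B` any alphabet.

(1) Let `K` be a finite set of pairs of vectors of natural numbers indexed by `A`, and let `S` be
a set of pairs of morphisms from the words over `A` to the words over `B` such that for each pair
of `S` there are weights of the letters of `B`, at most one of them zero, for which the weights of
the images of the letters under the two morphisms form a positive multiple of a member of `K`.
Then at most `2 * |A| * |K|` pairs of `S` have the same intersection of equality sets as `S`.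

(2) This applies with `|K| = (m + 1) ^ (2 * |A|)` if for each pair of `S` there is a letter `a` of
`B` such that the image of each letter under each of the two morphisms has at most `m` letters
other than `a`. -/
theorem result (A B : Type) [Fintype A] :
    (∀ (K : Finset ((A → ℕ) × (A → ℕ)))
      (S : Set ((FreeMonoid A →* FreeMonoid B) × (FreeMonoid A →* FreeMonoid B))),
      (∀ p ∈ S, ∃ ω : B → ℕ, (∀ b b', ω b = 0 → ω b' = 0 → b = b') ∧
        ∃ κ ∈ K, ∃ N : ℕ, 0 < N ∧ ∀ c, weight ω (p.1 (FreeMonoid.of c)) = N * κ.1 c ∧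
          weight ω (p.2 (FreeMonoid.of c)) = N * κ.2 c) →
      ∃ T ⊆ S, T.Finite ∧ T.ncard ≤ 2 * Fintype.card A * K.card ∧
        (⋂ p ∈ T, {x : FreeMonoid A | p.1 x = p.2 x}) =
          ⋂ p ∈ S, {x : FreeMonoid A | p.1 x = p.2 x}) ∧
    (∀ (m : ℕ) (S : Set ((FreeMonoid A →* FreeMonoid B) × (FreeMonoid A →* FreeMonoid B))),
      (∀ p ∈ S, ∃ a : B, ∀ c, weight (other a) (p.1 (FreeMonoid.of c)) ≤ m ∧
        weight (other a) (p.2 (FreeMonoid.of c)) ≤ m) →
      ∃ T ⊆ S, T.Finite ∧ T.ncard ≤ 2 * Fintype.card A * (m + 1) ^ (2 * Fintype.card A) ∧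
        (⋂ p ∈ T, {x : FreeMonoid A | p.1 x = p.2 x}) =
          ⋂ p ∈ S, {x : FreeMonoid A | p.1 x = p.2 x}) := by
  classical
  refine ⟨main, ?_⟩
  intro m S hS
  obtain ⟨T, h1, h2, h3, h4⟩ := main
    (Fintype.piFinset (fun _ : A => Finset.range (m + 1)) ×ˢ
      Fintype.piFinset (fun _ : A => Finset.range (m + 1))) S (by
    intro p hp
    obtain ⟨a, ha⟩ := hS p hp
    refine ⟨other a, ?_, (fun c => weight (other a) (p.1 (FreeMonoid.of c)),
      fun c => weight (other a) (p.2 (FreeMonoid.of c))), ?_, 1, one_pos, ?_⟩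
    · intro b b' h h'
      simp only [other] at h h'
      split_ifs at h h' with e e'
      exact e.trans e'.symm
    · rw [Finset.mem_product, Fintype.mem_piFinset, Fintype.mem_piFinset]
      refine ⟨fun c => Finset.mem_range.2 ?_, fun c => Finset.mem_range.2 ?_⟩
      · exact Nat.lt_succ_of_le (ha c).1
      · exact Nat.lt_succ_of_le (ha c).2
    · intro c
      simp)
  refine ⟨T, h1, h2, h3.trans ?_, h4⟩
  rw [Finset.card_product, Fintype.card_piFinset]
  simp only [Finset.card_range, Finset.prod_const, Finset.card_univ]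
  rw [← pow_add, ← two_mul]

end Pool.Agent.Results.MP_de9e11_lc.FinitelyManyRays
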