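import Pool.Agent.Y32.ES.Families

/-!
Finite determination of intersections of equality sets on families of words with polynomial
subword counts, in particular on bounded languages, for arbitrary sets of pairs of morphisms.
-/

set_option autoImplicit false

namespace Pool.Agent.Results.MP_de9e11_lc.PolynomialFamilies

/-- The number of occurrences of the word `v` as a scattered subword of the word `x`, i.e. of the
sets of positions of `x` whose letters, read from left to right, form `v`. -/
noncomputable def subwordCount {A : Type} (v x : FreeMonoid A) : ℕ :=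
  Y32.ES.occ (FreeMonoid.toList v) (FreeMonoid.toList x)

/-- The function `f` of the natural parameters `n` is a polynomial function with rational
coefficients. -/
def IsPolynomial {σ : Type} (f : (σ → ℕ) → ℕ) : Prop :=
  ∃ q : MvPolynomial σ ℚ, ∀ n, (f n : ℚ) = MvPolynomial.eval (fun s => (n s : ℚ)) q

/-- The family `w` of words, with natural parameters, has polynomial subword counts. -/
def PolynomialFamily {A σ : Type} (w : (σ → ℕ) → FreeMonoid A) : Prop :=
  ∀ v : FreeMonoid A, IsPolynomial (fun n => subwordCount v (w n))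

/-- The intersection of the equality sets of the pairs in `S`. -/
def E {A B : Type} (S : Set ((FreeMonoid A →* FreeMonoid B) × (FreeMonoid A →* FreeMonoid B))) :
    Set (FreeMonoid A) :=
  ⋂ p ∈ S, {x : FreeMonoid A | p.1 x = p.2 x}

/-- the images of the letters -/
def Φ {A B : Type} (p : (FreeMonoid A →* FreeMonoid B) × (FreeMonoid A →* FreeMonoid B)) :
    (A → List B) × (A → List B) :=
  (fun c => FreeMonoid.toList (p.1 (FreeMonoid.of c)),
    fun c => FreeMonoid.toList (p.2 (FreeMonoid.of c)))

lemma Φ_inj {A B : Type} : Function.Injective (Φ (A := A) (B := B)) := by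
  intro p q h
  have h1 := congrArg Prod.fst h
  have h2 := congrArg Prod.snd h
  apply Prod.ext
  · apply FreeMonoid.hom_eq
    intro c
    exact FreeMonoid.toList.injective (congrFun h1 c)
  · apply FreeMonoid.hom_eq
    intro c
    exact FreeMonoid.toList.injective (congrFun h2 c)

lemma toList_apply {A B : Type} (f : FreeMonoid A →* FreeMonoid B) (x : List A) :
    FreeMonoid.toList (f (FreeMonoid.ofList x)) =
      x.flatMap (fun c => FreeMonoid.toList (f (FreeMonoid.of c))) := by
  induction x with
  | nil => simp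
  | cons c x ih =>
    rw [FreeMonoid.ofList_cons, map_mul, FreeMonoid.toList_mul, ih, List.flatMap_cons]

lemma agree_iff {A B : Type}
    (p : (FreeMonoid A →* FreeMonoid B) × (FreeMonoid A →* FreeMonoid B)) (x : FreeMonoid A) :
    p.1 x = p.2 x ↔ (FreeMonoid.toList x).flatMap (Φ p).1 = (FreeMonoid.toList x).flatMap (Φ p).2 := by
  have h1 := toList_apply p.1 (FreeMonoid.toList x)
  have h2 := toList_apply p.2 (FreeMonoid.toList x)
  rw [FreeMonoid.ofList_toList] at h1 h2
  constructor
  · intro h
    show (FreeMonoid.toList x).flatMap _ = (FreeMonoid.toList x).flatMap _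
    rw [h] at h1
    exact h1.symm.trans h2
  · intro h
    apply FreeMonoid.toList.injective
    exact (h1.trans h).trans h2.symm

lemma transport {A B : Type} (L : Set (FreeMonoid A))
    (S : Set ((FreeMonoid A →* FreeMonoid B) × (FreeMonoid A →* FreeMonoid B)))
    (h : ∃ T ⊆ Φ '' S, T.Finite ∧ ∀ x ∈ L, (∀ p ∈ T,
      (FreeMonoid.toList x).flatMap p.1 = (FreeMonoid.toList x).flatMap p.2) →
        ∀ p ∈ Φ '' S, (FreeMonoid.toList x).flatMap p.1 = (FreeMonoid.toList x).flatMap p.2) :
    ∃ T ⊆ S, T.Finite ∧ E T ∩ L = E S ∩ L := by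
  obtain ⟨T, h1, h2, h3⟩ := h
  refine ⟨Φ ⁻¹' T, ?_, h2.preimage Φ_inj.injOn, ?_⟩
  · intro p hp
    obtain ⟨q, hq, he⟩ := h1 hp
    rw [← Φ_inj he]
    exact hq
  · ext x
    simp only [E, Set.mem_inter_iff, Set.mem_iInter, Set.mem_preimage]
    constructor
    · rintro ⟨hx, hL⟩
      refine ⟨fun p hp => ?_, hL⟩
      rw [Set.mem_ofPred_eq, agree_iff]
      refine h3 x hL ?_ _ ⟨p, hp, rfl⟩
      intro q hq
      obtain ⟨q', _, rfl⟩ := h1 hq
      exact (agree_iff q' x).1 (hx q' hq)
    · rintro ⟨hx, hL⟩
      refine ⟨fun p hp => ?_, hL⟩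
      obtain ⟨q, hq, he⟩ := h1 hp
      rw [← Φ_inj he]
      exact hx q hq

lemma polyFam {A σ : Type} {w : (σ → ℕ) → FreeMonoid A} :
    PolynomialFamily w ↔ Y32.ES.PolyFam (fun n => FreeMonoid.toList (w n)) :=
  ⟨fun h v => h (FreeMonoid.ofList v), fun h v => h (FreeMonoid.toList v)⟩

lemma toList_pow {A : Type} (x : FreeMonoid A) (m : ℕ) :
    FreeMonoid.toList (x ^ m) = Y32.ES.pw (FreeMonoid.toList x) m := by
  induction m with
  | zero => simp [Y32.ES.pw]
  | succ m ih => rw [pow_succ', FreeMonoid.toList_mul, ih, Y32.ES.pw]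

lemma general {A B I K : Type} [Fintype A] [CommRing K] [CharZero K] (w : I → FreeMonoid A)
    (R : Subring (I → K)) (hN : IsNoetherianRing R)
    (hR : ∀ v, (fun i => (subwordCount v (w i) : K)) ∈ R)
    (S : Set ((FreeMonoid A →* FreeMonoid B) × (FreeMonoid A →* FreeMonoid B))) :
    ∃ T ⊆ S, T.Finite ∧ E T ∩ Set.range w = E S ∩ Set.range w := by
  apply transport
  obtain ⟨T, h1, h2, h3⟩ := Y32.ES.core (fun i => FreeMonoid.toList (w i)) R hN
    (fun v => hR (FreeMonoid.ofList v)) (Φ '' S)
  refine ⟨T, h1, h2, ?_⟩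
  rintro _ ⟨i, rfl⟩
  exact h3 i

lemma polynomial {A B σ : Type} [Fintype A] [Finite σ] (w : (σ → ℕ) → FreeMonoid A)
    (hw : PolynomialFamily w)
    (S : Set ((FreeMonoid A →* FreeMonoid B) × (FreeMonoid A →* FreeMonoid B))) :
    ∃ T ⊆ S, T.Finite ∧ E T ∩ Set.range w = E S ∩ Set.range w := by
  apply transport
  obtain ⟨T, h1, h2, h3⟩ := Y32.ES.polyFam_finite (polyFam.1 hw) (Φ '' S)
  refine ⟨T, h1, h2, ?_⟩
  rintro _ ⟨i, rfl⟩
  exact h3 i

lemma family_const {A σ : Type} (u : FreeMonoid A) : PolynomialFamily (fun _ : σ → ℕ => u) :=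
  polyFam.2 (Y32.ES.PolyFam.const _)

lemma family_mul {A σ : Type} {w w' : (σ → ℕ) → FreeMonoid A} (h : PolynomialFamily w)
    (h' : PolynomialFamily w') : PolynomialFamily (fun n => w n * w' n) := by
  rw [polyFam] at h h' ⊢
  simp only [FreeMonoid.toList_mul]
  exact h.append h'

lemma family_pow {A σ : Type} {w : (σ → ℕ) → FreeMonoid A} {e : (σ → ℕ) → ℕ}
    (h : PolynomialFamily w) (he : IsPolynomial e) : PolynomialFamily (fun n => w n ^ e n) := by
  rw [polyFam] at h ⊢
  simp only [toList_pow]
  exact h.pow he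

lemma family_prod {A σ : Type} (l : List ((σ → ℕ) → FreeMonoid A))
    (h : ∀ w ∈ l, PolynomialFamily w) : PolynomialFamily (fun n => (l.map (fun w => w n)).prod) := by
  induction l with
  | nil => exact family_const 1
  | cons w l ih =>
    simp only [List.map_cons, List.prod_cons]
    exact family_mul (h w (by simp)) (ih fun w' hw' => h w' (by simp [hw']))

lemma isPolynomial_coord {σ : Type} (s : σ) : IsPolynomial (fun n : σ → ℕ => n s) :=
  ⟨MvPolynomial.X s, by simp⟩

lemma bounded {A B : Type} [Fintype A] (k : ℕ) (u : Fin k → FreeMonoid A)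
    (S : Set ((FreeMonoid A →* FreeMonoid B) × (FreeMonoid A →* FreeMonoid B))) :
    ∃ T ⊆ S, T.Finite ∧
      E T ∩ {x | ∃ n : Fin k → ℕ, x = (List.ofFn fun i => u i ^ n i).prod} =
        E S ∩ {x | ∃ n : Fin k → ℕ, x = (List.ofFn fun i => u i ^ n i).prod} := by
  have hw : PolynomialFamily (fun n : Fin k → ℕ => (List.ofFn fun i => u i ^ n i).prod) := by
    have h := family_prod (List.ofFn (fun i : Fin k => fun n : Fin k → ℕ => u i ^ n i)) (by
      intro w hw
      rw [List.mem_ofFn] at hw
      obtain ⟨i, rfl⟩ := hw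
      exact family_pow (family_const (u i)) (isPolynomial_coord i))
    simpa only [List.map_ofFn, Function.comp_def] using h
  obtain ⟨T, h1, h2, h3⟩ := polynomial _ hw S
  refine ⟨T, h1, h2, ?_⟩
  have h4 : {x | ∃ n : Fin k → ℕ, x = (List.ofFn fun i => u i ^ n i).prod} =
      Set.range (fun n : Fin k → ℕ => (List.ofFn fun i => u i ^ n i).prod) := by
    ext x
    simp only [Set.mem_range]
    exact ⟨fun ⟨n, hn⟩ => ⟨n, hn.symm⟩, fun ⟨n, hn⟩ => ⟨n, hn.symm⟩⟩
  rw [h4]
  exact h3

/-- Let `A` be a finite alphabet and `B` any alphabet. Below, `S` is an arbitrary set of pairs of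
morphisms from the words over `A` to the words over `B`.

(1) If all subword counts of a family `w` of words over `A` lie in a Noetherian ring of functions
on the index set, with values in a commutative ring of characteristic zero, then some finite
subset `T` of `S` has `E T ∩ range w = E S ∩ range w`.

(2) The same holds for every family with natural parameters whose subword counts are polynomial
functions of the parameters.

(3) The families in (2) include the constant ones and are closed under products and under powers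
with polynomial exponents, so they include all expressions with nested powers.

(4) In particular, for all words `u 1, …, u k`, some finite subset `T` of `S` has
`E T ∩ L = E S ∩ L` for the bounded language `L = u 1 ^* ⋯ u k ^*`. -/
theorem result (A B : Type) [Fintype A] :
    (∀ (I K : Type) [CommRing K] [CharZero K] (w : I → FreeMonoid A) (R : Subring (I → K)),
      IsNoetherianRing R → (∀ v, (fun i => (subwordCount v (w i) : K)) ∈ R) →
      ∀ S : Set ((FreeMonoid A →* FreeMonoid B) × (FreeMonoid A →* FreeMonoid B)),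
        ∃ T ⊆ S, T.Finite ∧ E T ∩ Set.range w = E S ∩ Set.range w) ∧
    (∀ (σ : Type) [Finite σ] (w : (σ → ℕ) → FreeMonoid A), PolynomialFamily w →
      ∀ S : Set ((FreeMonoid A →* FreeMonoid B) × (FreeMonoid A →* FreeMonoid B)),
        ∃ T ⊆ S, T.Finite ∧ E T ∩ Set.range w = E S ∩ Set.range w) ∧
    (∀ (σ : Type),
      (∀ u : FreeMonoid A, PolynomialFamily (fun _ : σ → ℕ => u)) ∧
      (∀ w w' : (σ → ℕ) → FreeMonoid A, PolynomialFamily w → PolynomialFamily w' →
        PolynomialFamily (fun n => w n * w' n)) ∧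
      (∀ (w : (σ → ℕ) → FreeMonoid A) (e : (σ → ℕ) → ℕ), PolynomialFamily w → IsPolynomial e →
        PolynomialFamily (fun n => w n ^ e n))) ∧
    (∀ (k : ℕ) (u : Fin k → FreeMonoid A)
      (S : Set ((FreeMonoid A →* FreeMonoid B) × (FreeMonoid A →* FreeMonoid B))),
        ∃ T ⊆ S, T.Finite ∧
          E T ∩ {x | ∃ n : Fin k → ℕ, x = (List.ofFn fun i => u i ^ n i).prod} =
            E S ∩ {x | ∃ n : Fin k → ℕ, x = (List.ofFn fun i => u i ^ n i).prod}) := by
  refine ⟨?_, ?_, ?_, ?_⟩
  · intro I K _ _ w R hN hR S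
    exact general w R hN hR S
  · intro σ _ w hw S
    exact polynomial w hw S
  · intro σ
    exact ⟨family_const, fun w w' => family_mul, fun w e => family_pow⟩
  · exact bounded

end Pool.Agent.Results.MP_de9e11_lc.PolynomialFamilies
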